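import Pool.Agent.H3.SF.Tg2

open MvPolynomial SC Pool.Agent.H27.LV
open Pool.Agent.H84.SM (dp cr dt)
open Pool.Agent.H92.SF Pool.Agent.H3.SF

namespace Pool.Agent.H34.SF

theorem vla_aux {k F K : Type} [Field k] [Field F] [Algebra k F] [Field K] [Algebra k K]
    {u : Fin 3 → F} (φ : Bb k u →ₐ[k] K) {a : F} {b b' : K} (h1 : Vl u φ a b)
    (h2 : Vl u φ a b') : b = b' := by
  obtain ⟨h, c, hh, h3, h4⟩ := h1
  obtain ⟨h', c', hh', h3', h4'⟩ := h2
  have e1 : h' * c = h * c' := by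
    apply Subtype.ext
    push_cast
    rw [← h3, ← h3']
    ring
  have e2 : φ h' * φ c = φ h * φ c' := by rw [← map_mul, ← map_mul, e1]
  rw [← h4, ← h4'] at e2
  have e3 : (φ h * φ h') * b = (φ h * φ h') * b' := by
    calc (φ h * φ h') * b = φ h' * (φ h * b) := by ring
      _ = φ h * (φ h' * b') := e2
      _ = (φ h * φ h') * b' := by ring
  exact mul_left_cancel₀ (mul_ne_zero hh hh') e3

theorem pf_VLA : T_VLA := by
  intro k F K _ _ _ _ _ u φ
  refine ⟨fun a b b' h1 h2 => vla_aux φ h1 h2, ?_, ?_, ?_, ?_⟩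
  · rintro a a' b b' ⟨h, c, hh, h3, h4⟩ ⟨h', c', hh', h3', h4'⟩
    refine ⟨⟨h * h', c * h' + h * c', ?_, ?_, ?_⟩, ⟨h * h', c * c', ?_, ?_, ?_⟩⟩
    · rw [map_mul]; exact mul_ne_zero hh hh'
    · push_cast
      rw [← h3, ← h3']
      ring
    · rw [map_mul, map_add, map_mul, map_mul, ← h4, ← h4']
      ring
    · rw [map_mul]; exact mul_ne_zero hh hh'
    · push_cast
      rw [← h3, ← h3']
      ring
    · rw [map_mul, map_mul, ← h4, ← h4']
      ring
  · rintro a b ⟨h, c, hh, h3, h4⟩ hb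
    have hc : φ c ≠ 0 := by rw [← h4]; exact mul_ne_zero hh hb
    have hc0 : (c : F) ≠ 0 := by
      intro h0
      apply hc
      have : c = 0 := Subtype.ext h0
      rw [this, map_zero]
    have ha : a ≠ 0 := by
      intro h0
      apply hc0
      rw [← h3, h0, mul_zero]
    refine ⟨c, h, hc, ?_, ?_⟩
    · rw [← h3, mul_assoc, mul_inv_cancel₀ ha, mul_one]
    · rw [← h4, mul_assoc, mul_inv_cancel₀ hb, mul_one]
  · intro h
    refine ⟨1, h, ?_, ?_, ?_⟩
    · rw [map_one]; exact one_ne_zero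
    · push_cast
      rw [one_mul]
    · rw [map_one, one_mul]
  · intro c
    refine ⟨1, algebraMap k _ c, ?_, ?_, ?_⟩
    · rw [map_one]; exact one_ne_zero
    · push_cast
      rw [one_mul]
    · rw [map_one, one_mul, AlgHom.commutes]

end Pool.Agent.H34.SF
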