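import Pool.Agent.H58.SF.Targets

/-!
# Examples of odd potentials
-/

set_option autoImplicit false

namespace Pool.Agent.H34.SF

open Pool.Agent.H68.BP Pool.Agent.H58.SF

/-- the potential of three colours -/
def w3 (a b : Fin 3) : ℤ := if b = a + 1 then 1 else if a = b + 1 then -1 else 0

theorem w3_anti : ∀ a b : Fin 3, w3 b a = -w3 a b := by decide

theorem w3_abs : ∀ a b : Fin 3, |w3 a b| ≤ 1 := by decide

theorem w3_odd : ∀ a b : Fin 3, a ≠ b → Odd (w3 a b) := by decide

theorem w3_sum : ∀ a b c d : Fin 3, a ≠ b → b ≠ c → c ≠ d → d ≠ a →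
    w3 a b + w3 b c + w3 c d + w3 d a = 0 := by decide

/-- the potential of circular colourings, as a function of the difference -/
def wc (p : ℕ) (d : ℤ) : ℤ := if d = 0 then 0 else if 0 < d then 2 * d - p else 2 * d + p

theorem wc_neg (p : ℕ) (d : ℤ) : wc p (-d) = -wc p d := by
  unfold wc
  split_ifs <;> omega

theorem wc_abs (p : ℕ) (a b : Fin p) : |wc p ((b : ℤ) - a)| ≤ p := by
  have ha : (a : ℤ) < p := by exact_mod_cast a.2
  have hb : (b : ℤ) < p := by exact_mod_cast b.2
  have ha0 : (0 : ℤ) ≤ a := Int.natCast_nonneg _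
  have hb0 : (0 : ℤ) ≤ b := Int.natCast_nonneg _
  unfold wc
  rw [abs_le]
  split_ifs <;> constructor <;> omega

theorem wc_odd (p : ℕ) (hp : Odd p) (d : ℤ) (hd : d ≠ 0) : Odd (wc p d) := by
  obtain ⟨k, hk⟩ := hp
  unfold wc
  rw [if_neg hd]
  split_ifs
  · exact ⟨d - k - 1, by rw [hk]; push_cast; ring⟩
  · exact ⟨d + k, by rw [hk]; push_cast; ring⟩

theorem wc_sum (p q : ℕ) (hpq : p < 4 * q) (d1 d2 d3 d4 : ℤ) (hs : d1 + d2 + d3 + d4 = 0)
    (h1 : q ≤ d1.natAbs ∧ d1.natAbs ≤ p - q) (h2 : q ≤ d2.natAbs ∧ d2.natAbs ≤ p - q)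
    (h3 : q ≤ d3.natAbs ∧ d3.natAbs ≤ p - q) (h4 : q ≤ d4.natAbs ∧ d4.natAbs ≤ p - q) :
    wc p d1 + wc p d2 + wc p d3 + wc p d4 = 0 := by
  unfold wc
  split_ifs <;> omega

open Classical in
/-- the potential of a linear order -/
noncomputable def wo {X : Type} (x y : X) : ℤ :=
  if WellOrderingRel x y then 1 else if WellOrderingRel y x then -1 else 0

theorem wo_anti {X : Type} (x y : X) : wo y x = -wo x y := by
  unfold wo
  by_cases h1 : WellOrderingRel x y
  · have h2 : ¬ WellOrderingRel y x := fun h => asymm h1 h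
    rw [if_neg h2, if_pos h1, if_pos h1]
  · by_cases h2 : WellOrderingRel y x
    · rw [if_pos h2, if_neg h1, if_pos h2]
      rfl
    · rw [if_neg h2, if_neg h1, if_neg h1, if_neg h2]
      rfl

theorem wo_abs {X : Type} (x y : X) : |wo x y| ≤ ((1 : ℕ) : ℤ) := by
  unfold wo
  split_ifs <;> simp

theorem wo_odd {X : Type} (x y : X) (h : x ≠ y) : Odd (wo x y) := by
  unfold wo
  by_cases h1 : WellOrderingRel x y
  · rw [if_pos h1]
    exact odd_one
  · by_cases h2 : WellOrderingRel y x
    · rw [if_neg h1, if_pos h2]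
      exact odd_neg_one
    · rcases trichotomous_of WellOrderingRel x y with h3 | h3 | h3
      · exact absurd h3 h1
      · exact absurd h3 h
      · exact absurd h3 h2

theorem pf_EX : T_EX := by
  refine ⟨?_, ?_, ?_⟩
  · intro X E c hc
    exact ⟨fun x y => w3 (c x) (c y), 1, fun x y => w3_anti _ _, fun x y => w3_abs _ _,
      fun x y h => w3_odd _ _ (hc x y h), fun a b d e h1 h2 h3 h4 =>
        w3_sum _ _ _ _ (hc _ _ h1) (hc _ _ h2) (hc _ _ h3) (hc _ _ h4)⟩
  · intro X E p q c hp hpq hc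
    have hq : 0 < q := by omega
    refine ⟨fun x y => wc p ((c y : ℤ) - (c x : ℤ)), p, ?_, fun x y => wc_abs p _ _, ?_, ?_⟩
    · intro x y
      have e : (c x : ℤ) - (c y : ℤ) = -((c y : ℤ) - (c x : ℤ)) := by ring
      simp only
      rw [e, wc_neg]
    · intro x y h
      refine wc_odd p hp _ ?_
      have := (hc x y h).1
      intro h0
      rw [h0] at this
      simp at this
      omega
    · intro a b d e h1 h2 h3 h4
      exact wc_sum p q hpq _ _ _ _ (by ring) (hc _ _ h1) (hc _ _ h2) (hc _ _ h3) (hc _ _ h4)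
  · intro X E hirr hE
    refine ⟨fun x y => wo x y, 1, fun x y => wo_anti x y, fun x y => wo_abs x y, ?_, ?_⟩
    · intro x y h
      refine wo_odd x y ?_
      rintro rfl
      exact hirr x h
    · intro a b c d h1 h2 h3 h4
      simp only
      rcases hE a b c d h1 h2 h3 h4 with rfl | rfl
      · have e1 := wo_anti a b
        have e2 := wo_anti a d
        omega
      · have e1 := wo_anti a b
        have e2 := wo_anti b c
        omega

end Pool.Agent.H34.SF
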